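import Mathlib

set_option autoImplicit false
set_option linter.unusedSectionVars false

namespace Pool.Agent.Results.MP_332ffb_mp.EmbeddedEigenvalue

open Set Real MeasureTheory

/-- An open metric graph: finitely many edges `[0, len e]` glued at `src e` (end `0`) and `tgt e`
(end `len e`), and `leads v` half-lines `[0, ∞)` attached at each vertex `v`. -/
structure OpenGraph (V E : Type) where
  src : E → V
  tgt : E → V
  len : E → ℝ
  len_pos : ∀ e, 0 < len e
  leads : V → ℕ

namespace OpenGraph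

variable {V E : Type} [Fintype V] [Fintype E] [DecidableEq V] (G : OpenGraph V E)

/-- no edge is a loop -/
def Loopless : Prop := ∀ e, G.src e ≠ G.tgt e

/-- two vertices joined by an edge -/
def Adj (u v : V) : Prop := ∃ e, (G.src e = u ∧ G.tgt e = v) ∨ (G.src e = v ∧ G.tgt e = u)

/-- the underlying compact graph is connected -/
def Connected : Prop := ∀ u v, Relation.ReflTransGen G.Adj u v

/-- the degree, leads included -/
def degree (v : V) : ℕ :=
  (Finset.univ.filter fun e => G.src e = v).card + (Finset.univ.filter fun e => G.tgt e = v).card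
    + G.leads v

/-- derivative of `f` along the edge `e` at `x ∈ [0, len e]` (one-sided at the ends) -/
noncomputable def slope (f : E → ℝ → ℝ) (e : E) (x : ℝ) : ℝ :=
  derivWithin (f e) (Icc 0 (G.len e)) x

/-- derivative along a half-line at `x ∈ [0, ∞)` (one-sided at `0`) -/
noncomputable def leadSlope (h : ℝ → ℝ) (x : ℝ) : ℝ := derivWithin h (Ici 0) x

/-- `(f, g)` is a nonzero square-integrable (real) eigenfunction with eigenvalue `lam` of the
Laplacian `-d²/dx²` with Kirchhoff conditions; `f` lives on the edges, `g` on the leads. -/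
structure IsEigenfunction (lam : ℝ) (f : E → ℝ → ℝ) (g : (v : V) → Fin (G.leads v) → ℝ → ℝ) :
    Prop where
  edge : ∀ e, ∀ x ∈ Icc 0 (G.len e),
    HasDerivWithinAt (f e) (G.slope f e x) (Icc 0 (G.len e)) x ∧
    HasDerivWithinAt (G.slope f e) (-(lam * f e x)) (Icc 0 (G.len e)) x
  lead : ∀ v i, ∀ x ∈ Ici (0 : ℝ),
    HasDerivWithinAt (g v i) (leadSlope (g v i) x) (Ici 0) x ∧
    HasDerivWithinAt (leadSlope (g v i)) (-(lam * g v i x)) (Ici 0) x
  continuity : ∃ c : V → ℝ, (∀ e, f e 0 = c (G.src e) ∧ f e (G.len e) = c (G.tgt e)) ∧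
    ∀ v i, g v i 0 = c v
  kirchhoff : ∀ v, (∑ e, if G.src e = v then G.slope f e 0 else 0) +
    (∑ e, if G.tgt e = v then -G.slope f e (G.len e) else 0) + (∑ i, leadSlope (g v i) 0) = 0
  squareIntegrable : ∀ v i, MemLp (g v i) 2 (volume.restrict (Ioi 0))
  nonzero : (∃ e, ∃ x ∈ Icc 0 (G.len e), f e x ≠ 0) ∨ ∃ v i, ∃ x ∈ Ici (0 : ℝ), g v i x ≠ 0

end OpenGraph

/-! ### the numbers `t_i` with `∑ t_i = ∑ 1/t_i = 0` -/

/-- numerators -/
def nu : Fin 5 → ℤ := ![-5, 7, 6, 15, -14]
/-- denominators -/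
def de : Fin 5 → ℤ := ![4, 4, 1, 2, 1]
/-- the numbers `-5/4, 7/4, 6, 15/2, -14` -/
noncomputable def t (i : Fin 5) : ℝ := nu i / de i
/-- the lengths -/
noncomputable def l (i : Fin 5) : ℝ := 2 * arctan (t i) + 2 * π

lemma sum_t : ∑ i, t i = 0 := by
  simp [Fin.sum_univ_five, t, nu, de]; norm_num

lemma sum_inv_t : ∑ i, (t i)⁻¹ = 0 := by
  simp [Fin.sum_univ_five, t, nu, de]; norm_num

lemma t_ne (i : Fin 5) : t i ≠ 0 := by
  fin_cases i <;> simp [t, nu, de]

lemma l_pos (i : Fin 5) : 0 < l i := by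
  have := neg_pi_div_two_lt_arctan (t i)
  unfold l
  linarith [pi_pos]

lemma cos_l (i : Fin 5) : cos (l i) = (1 - t i ^ 2) / (1 + t i ^ 2) := by
  have h : 1 + t i ^ 2 ≠ 0 := by positivity
  rw [l, cos_add_two_pi, cos_two_mul, cos_sq_arctan]
  field_simp
  ring

lemma sin_l (i : Fin 5) : sin (l i) = 2 * t i / (1 + t i ^ 2) := by
  have h : 0 < 1 + t i ^ 2 := by positivity
  rw [l, sin_add_two_pi, sin_two_mul, sin_arctan, cos_arctan]
  have h2 : √(1 + t i ^ 2) * √(1 + t i ^ 2) = 1 + t i ^ 2 := mul_self_sqrt h.le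
  have h3 : √(1 + t i ^ 2) ≠ 0 := (sqrt_pos.mpr h).ne'
  field_simp
  linear_combination (- t i) * h2

/-! ### rational independence of the lengths -/

/-- the Gaussian integers `de i + nu i * I` -/
def W (i : Fin 5) : GaussianInt := ⟨de i, nu i⟩

lemma toComplex_W (i : Fin 5) : (W i : ℂ) = de i + nu i * Complex.I := by
  rw [GaussianInt.toComplex_def]; rfl

lemma de_ne (i : Fin 5) : (de i : ℝ) ≠ 0 := by
  fin_cases i <;> simp [de]

lemma exp_l (i : Fin 5) : Complex.exp (Complex.I * l i) * ((star (W i) : GaussianInt) : ℂ) = (W i : ℂ) := by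
  have h1 : Complex.exp (Complex.I * l i) = (cos (l i) : ℝ) + (sin (l i) : ℝ) * Complex.I := by
    rw [mul_comm, Complex.exp_mul_I, Complex.ofReal_cos, Complex.ofReal_sin]
  have h2 : ((star (W i) : GaussianInt) : ℂ) = de i - nu i * Complex.I := by
    rw [GaussianInt.toComplex_star, toComplex_W]
    simp [sub_eq_add_neg]
  have hd := de_ne i
  have hpos : 0 < (de i : ℝ) ^ 2 + (nu i : ℝ) ^ 2 := by positivity
  have hc : cos (l i) = ((de i : ℝ) ^ 2 - nu i ^ 2) / (de i ^ 2 + nu i ^ 2) := by
    rw [cos_l, t]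
    have : 1 + ((nu i : ℝ) / de i) ^ 2 ≠ 0 := by positivity
    field_simp
  have hs : sin (l i) = 2 * (de i : ℝ) * nu i / (de i ^ 2 + nu i ^ 2) := by
    rw [sin_l, t]
    have : 1 + ((nu i : ℝ) / de i) ^ 2 ≠ 0 := by positivity
    field_simp
  rw [h1, h2, toComplex_W, hc, hs]
  have hne : ((de i : ℂ) ^ 2 + (nu i : ℂ) ^ 2) ≠ 0 := by exact_mod_cast hpos.ne'
  push_cast
  field_simp
  ring_nf
  simp only [Complex.I_sq]
  ring

/-- the Gaussian integer `W i` or its conjugate, according to the sign of `m` -/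
def U (m : ℤ) (i : Fin 5) : GaussianInt := if 0 ≤ m then W i else star (W i)

lemma exp_zpow (m : ℤ) (i : Fin 5) :
    Complex.exp (Complex.I * l i) ^ m * ((star (U m i) : GaussianInt) : ℂ) ^ m.natAbs
      = (U m i : ℂ) ^ m.natAbs := by
  have h := exp_l i
  have he : Complex.exp (Complex.I * l i) ≠ 0 := Complex.exp_ne_zero _
  unfold U
  rcases le_or_gt 0 m with hm | hm
  · rw [if_pos hm]
    obtain ⟨n, rfl⟩ := Int.eq_ofNat_of_zero_le hm
    rw [Int.natAbs_natCast, zpow_natCast, ← mul_pow, h]
  · rw [if_neg (not_le.mpr hm)]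
    obtain ⟨n, rfl⟩ : ∃ n : ℕ, m = -(n : ℤ) := ⟨m.natAbs, by omega⟩
    rw [Int.natAbs_neg, Int.natAbs_natCast, zpow_neg, zpow_natCast, star_star, ← h, mul_pow,
      ← mul_assoc, inv_mul_cancel₀ (pow_ne_zero _ he), one_mul]

lemma gaussian_relation (n : Fin 5 → ℤ) (h : ∑ i, n i * l i = 0) :
    ∏ i, (star (U (n i) i)) ^ (n i).natAbs = ∏ i, (U (n i) i) ^ (n i).natAbs := by
  have h1 : ∏ i, Complex.exp (Complex.I * l i) ^ (n i) = 1 := by
    have : ∀ i, Complex.exp (Complex.I * l i) ^ (n i) = Complex.exp (Complex.I * ((n i * l i : ℝ) : ℂ)) := by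
      intro i
      rw [← Complex.exp_int_mul]
      congr 1
      push_cast
      ring
    simp only [this]
    rw [← Complex.exp_sum, ← Finset.mul_sum, ← Complex.ofReal_sum, h]
    simp
  have h2 : ∏ i, ((star (U (n i) i) : GaussianInt) : ℂ) ^ (n i).natAbs
      = ∏ i, ((U (n i) i : GaussianInt) : ℂ) ^ (n i).natAbs := by
    rw [← one_mul (∏ i, ((star (U (n i) i) : GaussianInt) : ℂ) ^ (n i).natAbs), ← h1,
      ← Finset.prod_mul_distrib]
    exact Finset.prod_congr rfl fun i _ => exp_zpow (n i) i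
  apply GaussianInt.toComplex_injective
  simp only [map_prod, map_pow]
  exact h2

/-- If some ring homomorphism from the Gaussian integers to a domain kills `W i` but neither the
other `W j` nor any conjugate, then the `i`-th coefficient of every relation vanishes. -/
lemma coeff_zero {R : Type} [CommRing R] [IsDomain R] (φ : GaussianInt →+* R) (i : Fin 5)
    (h0 : φ (W i) = 0) (h1 : ∀ j, φ (star (W j)) ≠ 0) (h2 : ∀ j, j ≠ i → φ (W j) ≠ 0)
    (n : Fin 5 → ℤ) (h : ∑ i, n i * l i = 0) : n i = 0 := by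
  have hrel := congrArg φ (gaussian_relation n h)
  rw [map_prod, map_prod] at hrel
  simp only [map_pow] at hrel
  by_contra hn
  have hnat : (n i).natAbs ≠ 0 := Int.natAbs_ne_zero.mpr hn
  rcases le_or_gt 0 (n i) with hm | hm
  · have hR : ∏ j, φ (U (n j) j) ^ (n j).natAbs = 0 := by
      apply Finset.prod_eq_zero (Finset.mem_univ i)
      rw [U, if_pos hm, h0, zero_pow hnat]
    rw [hR, Finset.prod_eq_zero_iff] at hrel
    obtain ⟨j, _, hj⟩ := hrel
    have hz : φ (star (U (n j) j)) = 0 := by
      by_contra hne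
      exact pow_ne_zero _ hne hj
    unfold U at hz
    split_ifs at hz with hs
    · exact h1 j hz
    · rw [star_star] at hz
      by_cases hji : j = i
      · subst hji; exact hs hm
      · exact h2 j hji hz
  · have hL : ∏ j, φ (star (U (n j) j)) ^ (n j).natAbs = 0 := by
      apply Finset.prod_eq_zero (Finset.mem_univ i)
      rw [U, if_neg (not_le.mpr hm), star_star, h0, zero_pow hnat]
    rw [hL] at hrel
    have hrel' := hrel.symm
    rw [Finset.prod_eq_zero_iff] at hrel'
    obtain ⟨j, _, hj⟩ := hrel'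
    have hz : φ (U (n j) j) = 0 := by
      by_contra hne
      exact pow_ne_zero _ hne hj
    unfold U at hz
    split_ifs at hz with hs
    · by_cases hji : j = i
      · subst hji; exact absurd hs (not_le.mpr hm)
      · exact h2 j hji hz
    · exact h1 j hz

/-- reduction of the Gaussian integers modulo a prime at a square root of `-1` -/
def red (p : ℕ) (r : ZMod p) (h : r * r = ((-1 : ℤ) : ZMod p)) : GaussianInt →+* ZMod p :=
  Zsqrtd.lift ⟨r, h⟩

lemma red_apply (p : ℕ) (r : ZMod p) (h : r * r = ((-1 : ℤ) : ZMod p)) (z : GaussianInt) :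
    red p r h z = (z.re : ZMod p) + (z.im : ZMod p) * r := rfl

lemma coeff_zero_of (p : ℕ) [Fact p.Prime] (r : ZMod p) (h : r * r = ((-1 : ℤ) : ZMod p)) (i : Fin 5)
    (h0 : (de i : ZMod p) + (nu i : ZMod p) * r = 0)
    (h1 : ∀ j, (de j : ZMod p) + ((- nu j : ℤ) : ZMod p) * r ≠ 0)
    (h2 : ∀ j, j ≠ i → (de j : ZMod p) + (nu j : ZMod p) * r ≠ 0)
    (n : Fin 5 → ℤ) (hn : ∑ i, n i * l i = 0) : n i = 0 :=
  coeff_zero (red p r h) i h0 h1 h2 n hn

instance : Fact (Nat.Prime 41) := ⟨by norm_num⟩
instance : Fact (Nat.Prime 5) := ⟨by norm_num⟩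
instance : Fact (Nat.Prime 37) := ⟨by norm_num⟩
instance : Fact (Nat.Prime 229) := ⟨by norm_num⟩
instance : Fact (Nat.Prime 197) := ⟨by norm_num⟩

/-- the five lengths are linearly independent over the integers -/
lemma indep : LinearIndependent ℤ l := by
  rw [Fintype.linearIndependent_iff]
  intro n hn
  have hn' : ∑ i, n i * l i = 0 := by simpa using hn
  intro i
  fin_cases i
  · exact coeff_zero_of 41 9 (by decide) 0 (by decide) (by decide) (by decide) n hn'
  · exact coeff_zero_of 5 3 (by decide) 1 (by decide) (by decide) (by decide) n hn'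
  · exact coeff_zero_of 37 6 (by decide) 2 (by decide) (by decide) (by decide) n hn'
  · exact coeff_zero_of 229 122 (by decide) 3 (by decide) (by decide) (by decide) n hn'
  · exact coeff_zero_of 197 183 (by decide) 4 (by decide) (by decide) (by decide) n hn'

/-! ### the graph and its eigenfunction -/

/-- two vertices joined by five edges, with one lead at the first vertex -/
noncomputable def graph : OpenGraph (Fin 2) (Fin 5) where
  src _ := 0
  tgt _ := 1
  len := l
  len_pos := l_pos
  leads := ![1, 0]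

/-- amplitudes on the edges -/
noncomputable def amp (i : Fin 5) : ℝ := (1 + t i ^ 2) / (2 * t i)

/-- the eigenfunction on the edges -/
noncomputable def fn (i : Fin 5) (x : ℝ) : ℝ := amp i * sin x

lemma hasDerivAt_fn (i : Fin 5) (x : ℝ) : HasDerivAt (fn i) (amp i * cos x) x :=
  (hasDerivAt_sin x).const_mul (amp i)

lemma slope_fn (i : Fin 5) {x : ℝ} (hx : x ∈ Icc 0 (l i)) : graph.slope fn i x = amp i * cos x :=
  (hasDerivAt_fn i x).hasDerivWithinAt.derivWithin (uniqueDiffOn_Icc (l_pos i) x hx)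

lemma eigenfunction : graph.IsEigenfunction 1 fn (fun _ _ _ => 0) where
  edge i x hx := by
    refine ⟨by rw [slope_fn i hx]; exact (hasDerivAt_fn i x).hasDerivWithinAt, ?_⟩
    have h : HasDerivWithinAt (fun x => amp i * cos x) (-(1 * fn i x)) (Icc 0 (l i)) x := by
      refine ((hasDerivAt_cos x).const_mul (amp i)).hasDerivWithinAt.congr_deriv ?_
      simp [fn]
    exact h.congr (fun y hy => slope_fn i hy) (slope_fn i hx)
  lead v i x hx := by
    have h : ∀ y, OpenGraph.leadSlope (fun _ => (0 : ℝ)) y = 0 := fun y => by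
      simp [OpenGraph.leadSlope]
    have h' : OpenGraph.leadSlope (fun _ => (0 : ℝ)) = fun _ => 0 := funext h
    rw [h']
    simpa using hasDerivWithinAt_const x (Ici (0 : ℝ)) (0 : ℝ)
  continuity := by
    refine ⟨![0, 1], ⟨fun i => ⟨by simp [fn, graph], ?_⟩, fun v i => ?_⟩⟩
    · change amp i * sin (l i) = 1
      rw [sin_l, amp]
      have h := t_ne i
      have h2 : 1 + t i ^ 2 ≠ 0 := by positivity
      field_simp
    · fin_cases v
      · simp
      · exact i.elim0
  kirchhoff v := by
    have h0 : ∀ i, graph.slope fn i 0 = ((t i)⁻¹ + t i) / 2 := by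
      intro i
      rw [slope_fn i (left_mem_Icc.mpr (l_pos i).le), cos_zero, mul_one, amp]
      have h := t_ne i
      field_simp
    have h1 : ∀ i, -graph.slope fn i (graph.len i) = (t i - (t i)⁻¹) / 2 := by
      intro i
      change -graph.slope fn i (l i) = _
      rw [slope_fn i (right_mem_Icc.mpr (l_pos i).le), cos_l, amp]
      have h := t_ne i
      have h2 : 1 + t i ^ 2 ≠ 0 := by positivity
      field_simp
      ring
    have h2 : ∀ y, OpenGraph.leadSlope (fun _ => (0 : ℝ)) y = 0 := fun y => by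
      simp [OpenGraph.leadSlope]
    simp only [h0, h1, h2, Finset.sum_const_zero, add_zero]
    have e1 := sum_t
    have e2 := sum_inv_t
    fin_cases v
    · have h3 : ∀ i : Fin 5, (if graph.src i = ((fun i => i) ⟨0, by norm_num⟩ : Fin 2) then ((t i)⁻¹ + t i) / 2 else 0)
          = ((t i)⁻¹ + t i) / 2 := fun i => if_pos rfl
      have h4 : ∀ i : Fin 5, (if graph.tgt i = ((fun i => i) ⟨0, by norm_num⟩ : Fin 2) then (t i - (t i)⁻¹) / 2 else 0)
          = 0 := fun i => if_neg (by simp [graph])
      simp only [h3, h4, Finset.sum_const_zero, add_zero]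
      rw [← Finset.sum_div, Finset.sum_add_distrib, e1, e2]
      simp
    · have h3 : ∀ i : Fin 5, (if graph.src i = ((fun i => i) ⟨1, by norm_num⟩ : Fin 2) then ((t i)⁻¹ + t i) / 2 else 0)
          = 0 := fun i => if_neg (by simp [graph])
      have h4 : ∀ i : Fin 5, (if graph.tgt i = ((fun i => i) ⟨1, by norm_num⟩ : Fin 2) then (t i - (t i)⁻¹) / 2 else 0)
          = (t i - (t i)⁻¹) / 2 := fun i => if_pos rfl
      simp only [h3, h4, Finset.sum_const_zero, zero_add]
      rw [← Finset.sum_div, Finset.sum_sub_distrib, e1, e2]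
      simp
  squareIntegrable v i := MemLp.zero
  nonzero := by
    left
    refine ⟨0, l 0, right_mem_Icc.mpr (l_pos 0).le, ?_⟩
    have : fn 0 (l 0) = 1 := by
      rw [fn, sin_l, amp]
      have h := t_ne 0
      have h2 : 1 + t 0 ^ 2 ≠ 0 := by positivity
      field_simp
    rw [this]
    norm_num

/-- **Disproof of Q1.** A connected loopless open quantum graph with a lead, no vertex of degree
two and edge lengths linearly independent over the integers can have a square-integrable
eigenfunction: two vertices joined by five edges, one lead, eigenvalue `1`. -/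
theorem result : ∃ G : OpenGraph (Fin 2) (Fin 5), G.Loopless ∧ G.Connected ∧
    (∃ v, G.leads v ≠ 0) ∧ (∀ v, G.degree v ≠ 2) ∧ LinearIndependent ℤ G.len ∧
    ∃ f g, G.IsEigenfunction 1 f g := by
  refine ⟨graph, ?_, ?_, ⟨0, by simp [graph]⟩, ?_, indep, fn, _, eigenfunction⟩
  · intro e
    simp [graph]
  · intro u v
    by_cases h : u = v
    · rw [h]
    · apply Relation.ReflTransGen.single
      refine ⟨0, ?_⟩
      fin_cases u <;> fin_cases v <;> simp [graph] at h ⊢
  · intro v
    fin_cases v <;> simp [OpenGraph.degree, graph]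

end Pool.Agent.Results.MP_332ffb_mp.EmbeddedEigenvalue
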